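import Pool.Agent.H31.GUF.Targets

/-!
Statements of the general form (arbitrary linear forms) of part F of the project GU on
`MP_c59857_nt`.
-/

set_option autoImplicit false

open Finset Filter Topology

namespace Pool.Agent.H28.GUG

open Pool.Agent.H91.LF (lz Bdd Mean sqw)
open Pool.Agent.H24.T2 (box)
open Pool.Agent.H31.DP
open Pool.Agent.H31.GUF
open Pool.Agent.H28.GU (Gw)

/-- The function on `ZMod q` given by `g` on `[1, M]` and by `0` elsewhere. -/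
noncomputable def cut (q M : ℕ) (g : ℤ → ℝ) (x : ZMod q) : ℝ :=
  if 1 ≤ x.val ∧ x.val ≤ M then g (x.val : ℤ) else 0

/-- [BRG] The Gowers norms on `ZMod q` and the cubes of integers. -/
def G_BR : Prop :=
  ∀ (k M q : ℕ) [NeZero q] (g : ℤ → ℝ), 2 * M < q →
    Gw k (cut q M g) = (Uc M k (Finset.Icc (1 : ℤ) M) (fun n => ((g n : ℝ) : ℂ))).re

/-- [GVG] The generalised von Neumann inequality for linear forms on `ZMod q`. -/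
def G_GV : Prop :=
  ∀ (R J q : ℕ) [Fact q.Prime] (g : ZMod q → ℝ) (c : (Fin R → ZMod q) → ℂ) (a₀ : ZMod q)
    (b₀ : Fin R → ZMod q) (a : Fin J → ZMod q) (b : Fin J → Fin R → ZMod q)
    (F : Fin J → ZMod q → ℂ), 1 ≤ J → (∀ x, |g x| ≤ 1) → (∀ t, ‖c t‖ ≤ 1) →
    (∀ j x, ‖F j x‖ ≤ 1) → a₀ ≠ 0 → (∀ j, ∃ i, a₀ * b j i ≠ a j * b₀ i) →
    ‖∑ t : Fin R → ZMod q, c t * ∑ n : ZMod q, ((g (a₀ * n + ∑ i, b₀ i * t i) : ℝ) : ℂ) *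
      ∏ j, F j (a j * n + ∑ i, b j i * t i)‖ ^ (2 ^ (J + 1)) ≤
      (q : ℝ) ^ ((R + 1) * 2 ^ (J + 1) - (J + 2)) * Gw (J + 1) g

/-- [LIG] Linear configurations are controlled by the uniformity norms of one function. -/
def G_LI : Prop :=
  ∀ (R J C : ℕ) (a₀ : ℤ) (b₀ : Fin R → ℤ) (a : Fin J → ℤ) (b : Fin J → Fin R → ℤ) (η : ℝ),
    a₀ ≠ 0 → (∀ j, ∃ i, a₀ * b j i ≠ a j * b₀ i) → (2 * |a₀| + ∑ i, |b₀ i| ≤ (C : ℤ)) → 0 < η →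
    ∃ ε : ℝ, 0 < ε ∧ ∃ N₀ : ℕ, ∀ N : ℕ, N₀ ≤ N → ∀ (g : ℤ → ℝ), (∀ m, |g m| ≤ 1) →
      (∀ m, m < 1 → g m = 0) → UU (J + 2) (C * N) (fun n => ((g n : ℝ) : ℂ)) ≤ ε →
      ∀ (F : Fin J → ℤ → ℂ) (θ : ℝ), (∀ j m, ‖F j m‖ ≤ 1) →
        ∑ t ∈ box R N, ‖∑ n ∈ Finset.Icc (1 : ℤ) N, ((g (a₀ * n + dot b₀ t) : ℝ) : ℂ) *
          ee (n * θ) * ∏ j, F j (a j * n + dot (b j) t)‖ ≤ η * (N : ℝ) ^ (R + 1)

open Classical in
/-- A scale at which the product of the problem along the form `a₀ n + b₀ . t` correlates with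
bounded functions along the forms `a j n + b j . t`, for many `t`. -/
def BadG {r R J : ℕ} (β : Fin r → ℤ) (δ : Fin r → ℕ) (a₀ : ℤ) (b₀ : Fin R → ℤ) (a : Fin J → ℤ)
    (b : Fin J → Fin R → ℤ) (η : ℝ) (N : ℕ) : Prop :=
  ∃ F : Fin J → ℤ → ℂ, (∀ j m, ‖F j m‖ ≤ 1) ∧
    η * (N : ℝ) ^ R < (((box R N).filter (fun t => η * N <
      ‖∑ n ∈ Finset.Icc (1 : ℤ) N, ((fz β δ (a₀ * n + dot b₀ t) : ℝ) : ℂ) *
        ∏ j, F j (a j * n + dot (b j) t)‖)).card : ℝ)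

open Classical in
/-- [F0G] The final theorem for natural shifts, without obstruction on progressions. -/
def G_F0 : Prop :=
  ∀ (r : ℕ) (h : Fin r → ℕ) (δ : Fin r → ℕ) (R J : ℕ) (a₀ : ℤ) (b₀ : Fin R → ℤ) (a : Fin J → ℤ)
    (b : Fin J → Fin R → ℤ) (η ρ : ℝ), (∀ i, 1 ≤ δ i) → a₀ ≠ 0 →
    (∀ j, ∃ i, a₀ * b j i ≠ a j * b₀ i) → 0 < η → 0 < ρ →
    ∃ K : ℕ, 0 < K ∧ ∀ x y : ℕ, 0 < x → K * x ≤ y →
      ∑ N ∈ (Finset.Icc x y).filter (fun N : ℕ => NoObs (fun i => (h i : ℤ)) δ K N ∧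
        BadG (fun i => (h i : ℤ)) δ a₀ b₀ a b η N), (1 / (N : ℝ)) ≤
          ρ * Real.log ((y : ℝ) / x)

open Classical in
/-- [FNG] The final theorem: linear configurations with arbitrary bounded functions. -/
def G_FN : Prop :=
  ∀ (r : ℕ) (β : Fin r → ℤ) (δ : Fin r → ℕ) (R J : ℕ) (a₀ : ℤ) (b₀ : Fin R → ℤ) (a : Fin J → ℤ)
    (b : Fin J → Fin R → ℤ) (η ρ : ℝ), (∀ i, 1 ≤ δ i) → a₀ ≠ 0 →
    (∀ j, ∃ i, a₀ * b j i ≠ a j * b₀ i) → 0 < η → 0 < ρ →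
    ∃ K : ℕ, ∀ x y : ℕ, 0 < x → K * x ≤ y →
      ∑ N ∈ (Finset.Icc x y).filter (fun N : ℕ => (Pair β δ ∨ NoObs β δ K N) ∧
        BadG β δ a₀ b₀ a b η N), (1 / (N : ℝ)) ≤ ρ * Real.log ((y : ℝ) / x)

end Pool.Agent.H28.GUG
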